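import Pool.Agent.L5helper59.DM.Defs

/-!
# D6: induction over the points
-/

set_option autoImplicit false

open MvPolynomial Filter Topology

namespace Pool.Agent.L5helper59.DM

theorem move_inj {ι : Type} [Fintype ι] [DecidableEq ι] (S : Finset (ι → ℂ))
    (Q : (ι → ℂ) → ℕ → (ι → ℂ) → Prop)
    (h : ∀ p ∈ S, ∀ ε : ℝ, 0 < ε → ∀ᶠ k in atTop, ∃ p' : ι → ℂ,
      (∀ i, ‖p' i - p i‖ ≤ ε) ∧ Q p k p') :
    ∀ᶠ k in atTop, ∃ f : (ι → ℂ) → (ι → ℂ), Set.InjOn f (S : Set (ι → ℂ)) ∧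
      ∀ p ∈ S, Q p k (f p) := by
  obtain ⟨ε, h1, h2⟩ : ∃ ε : ℝ, (∀ p ∈ S, ∀ r ∈ S, p ≠ r → 2 * ε < dist p r) ∧ 0 < ε := by
    have h3 : ∀ᶠ ε : ℝ in 𝓝[>] (0 : ℝ), ∀ p ∈ S, ∀ r ∈ S, p ≠ r → 2 * ε < dist p r := by
      rw [Filter.eventually_all_finset]
      intro p _
      rw [Filter.eventually_all_finset]
      intro r _
      by_cases hpr : p = r
      · exact Filter.Eventually.of_forall fun ε hne => absurd hpr hne
      · have h4 : Tendsto (fun ε : ℝ => 2 * ε) (𝓝[>] (0 : ℝ)) (𝓝 (2 * 0)) :=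
          (tendsto_const_nhds.mul tendsto_id).mono_left nhdsWithin_le_nhds
        have h5 : (2 : ℝ) * 0 < dist p r := by
          rw [mul_zero]
          exact dist_pos.2 hpr
        filter_upwards [h4.eventually_lt_const h5] with ε hε _ using hε
    obtain ⟨ε, h5, h6⟩ := (h3.and self_mem_nhdsWithin).exists
    exact ⟨ε, h5, h6⟩
  have h3 : ∀ᶠ k in atTop, ∀ p ∈ S, ∃ p' : ι → ℂ, (∀ i, ‖p' i - p i‖ ≤ ε) ∧ Q p k p' := by
    rw [Filter.eventually_all_finset]
    intro p hp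
    exact h p hp ε h2
  filter_upwards [h3] with k hk
  have hk' : ∀ p : ι → ℂ, ∃ p' : ι → ℂ, p ∈ S → (∀ i, ‖p' i - p i‖ ≤ ε) ∧ Q p k p' := by
    intro p
    by_cases hp : p ∈ S
    · obtain ⟨p', hp'⟩ := hk p hp
      exact ⟨p', fun _ => hp'⟩
    · exact ⟨p, fun h => absurd h hp⟩
  choose f hf using hk'
  refine ⟨f, ?_, fun p hp => (hf p hp).2⟩
  intro p hp r hr hfr
  by_contra hne
  have h4 := h1 p hp r hr hne
  have h5 : dist (f p) p ≤ ε := by
    rw [dist_pi_le_iff h2.le]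
    intro i
    rw [dist_eq_norm]
    exact (hf p hp).1 i
  have h6 : dist (f r) r ≤ ε := by
    rw [dist_pi_le_iff h2.le]
    intro i
    rw [dist_eq_norm]
    exact (hf r hr).1 i
  have h7 : dist p r ≤ dist p (f p) + dist (f p) r := dist_triangle _ _ _
  rw [dist_comm p (f p)] at h7
  rw [hfr] at h7 h5
  linarith

theorem eval_sb {τ ι : Type} [Fintype ι] (a : τ → ℂ) (b : τ → ι → ℂ) (q : MvPolynomial τ ℂ)
    (x : ι → ℂ) : eval x (sb a b q) = eval (fun v => a v + ∑ i, b v i * x i) q := by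
  unfold sb
  induction q using MvPolynomial.induction_on with
  | C c => simp
  | add p q hp hq => simp only [map_add, hp, hq]
  | mul_X p v hp =>
    simp only [map_mul, hp, aeval_X, eval_X]
    congr 1
    simp [af]

/-- D6, uses D3, D4, D5 -/
theorem all_points_of {τ ι κ : Type} [Fintype τ] [DecidableEq τ] [Fintype ι] [Fintype κ]
    [DecidableEq ι] [DecidableEq κ]
    (D3 : ∀ (F : MvPolynomial ι ℂ) (Fk : ℕ → MvPolynomial ι ℂ) (D : ℕ),
      (∀ k, (Fk k).totalDegree ≤ D) →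
      (∀ d, Tendsto (fun k => coeff d (Fk k)) atTop (𝓝 (coeff d F))) →
      ∀ (w : κ → ι → ℂ) (p : ι → ℂ), Pt F w p → ∀ ε : ℝ, 0 < ε →
      ∀ᶠ k in atTop, ∃ p' : ι → ℂ, (∀ i, ‖p' i - p i‖ ≤ ε) ∧ Pt (Fk k) w p')
    (D4 : ∀ (a : τ → ℂ) (b : τ → ι → ℂ) (ak : ℕ → τ → ℂ) (bk : ℕ → τ → ι → ℂ),
      (∀ v, Tendsto (fun k => ak k v) atTop (𝓝 (a v))) →
      (∀ v i, Tendsto (fun k => bk k v i) atTop (𝓝 (b v i))) → ∀ P : MvPolynomial τ ℂ,
      (∀ k, (sb (ak k) (bk k) P).totalDegree ≤ P.totalDegree) ∧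
        (∀ d, Tendsto (fun k => coeff d (sb (ak k) (bk k) P)) atTop (𝓝 (coeff d (sb a b P)))))
    (P q : MvPolynomial τ ℂ)
    (D5 : ∀ (a : τ → ℂ) (b : τ → ι → ℂ) (w : κ → ι → ℂ) (p : ι → ℂ), Pt (sb a b P) w p →
      ∃ (ak : ℕ → τ → ℂ) (bk : ℕ → τ → ι → ℂ), (∀ v, Tendsto (fun k => ak k v) atTop (𝓝 (a v))) ∧
      (∀ v i, Tendsto (fun k => bk k v i) atTop (𝓝 (b v i))) ∧
      ∀ᶠ k in atTop, Pt (sb (ak k) (bk k) P) w p ∧ eval p (sb (ak k) (bk k) q) ≠ 0)
    (a : τ → ℂ) (b : τ → ι → ℂ) (w : κ → ι → ℂ) (S : Finset (ι → ℂ))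
    (hS : ∀ p ∈ S, Pt (sb a b P) w p) :
    ∃ (a' : τ → ℂ) (b' : τ → ι → ℂ) (S' : Finset (ι → ℂ)), S'.card = S.card ∧
      ∀ p ∈ S', Pt (sb a' b' P) w p ∧ eval p (sb a' b' q) ≠ 0 := by
  classical
  have main : ∀ n : ℕ, n ≤ S.card → ∃ (a' : τ → ℂ) (b' : τ → ι → ℂ) (S' T : Finset (ι → ℂ)),
      S'.card = S.card ∧ T ⊆ S' ∧ T.card = n ∧ (∀ p ∈ S', Pt (sb a' b' P) w p) ∧
      ∀ p ∈ T, eval p (sb a' b' q) ≠ 0 := by
    intro n
    induction n with
    | zero =>
      intro _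
      exact ⟨a, b, S, ∅, rfl, Finset.empty_subset _, rfl, hS, fun p hp => absurd hp (Finset.notMem_empty p)⟩
    | succ n ih =>
      intro hn
      obtain ⟨a', b', S', T, h1, h2, h3, h4, h5⟩ := ih (by omega)
      obtain ⟨p₀, hp₀, hp₀T⟩ : ∃ p₀ ∈ S', p₀ ∉ T :=
        Finset.exists_mem_notMem_of_card_lt_card (by omega)
      obtain ⟨ak, bk, ha, hb, hk⟩ := D5 a' b' w p₀ (h4 p₀ hp₀)
      obtain ⟨hdeg, hlim⟩ := D4 a' b' ak bk ha hb P
      have hab : Tendsto (fun k => (ak k, bk k)) atTop (𝓝 (a', b')) := by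
        refine Tendsto.prodMk_nhds (tendsto_pi_nhds.2 ha) (tendsto_pi_nhds.2 fun v => ?_)
        exact tendsto_pi_nhds.2 (hb v)
      have hcont : Continuous (fun y : ((τ → ℂ) × (τ → ι → ℂ)) × (ι → ℂ) =>
          eval (fun v => y.1.1 v + ∑ i, y.1.2 v i * y.2 i) q) := by
        refine (MvPolynomial.continuous_eval q).comp ?_
        fun_prop
      have hmv := move_inj S' (fun r k r' => Pt (sb (ak k) (bk k) P) w r' ∧
        (r ∈ insert p₀ T → eval r' (sb (ak k) (bk k) q) ≠ 0)) (by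
        intro r hr ε hε
        by_cases hr0 : r = p₀
        · subst hr0
          filter_upwards [hk] with k hk1
          exact ⟨r, fun i => by simpa using hε.le, hk1.1, fun _ => hk1.2⟩
        · by_cases hrT : r ∈ T
          · have h6 := h5 r hrT
            rw [eval_sb] at h6
            have h7 : ∀ᶠ y in 𝓝 (((a', b'), r) : ((τ → ℂ) × (τ → ι → ℂ)) × (ι → ℂ)),
                eval (fun v => y.1.1 v + ∑ i, y.1.2 v i * y.2 i) q ≠ 0 :=
              hcont.continuousAt.eventually_ne h6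
            rw [nhds_prod_eq, Filter.eventually_prod_iff] at h7
            obtain ⟨pa, hpa, pb, hpb, hpab⟩ := h7
            obtain ⟨δ, hδ, hδb⟩ := Metric.eventually_nhds_iff.1 hpb
            have h8 := D3 (sb a' b' P) (fun k => sb (ak k) (bk k) P) P.totalDegree hdeg hlim w r
              (h4 r hr) (min ε (δ / 2)) (lt_min hε (by positivity))
            filter_upwards [h8, hab.eventually hpa] with k hk1 hk2
            obtain ⟨r', hr', hPt⟩ := hk1
            refine ⟨r', fun i => (hr' i).trans (min_le_left _ _), hPt, fun _ => ?_⟩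
            rw [eval_sb]
            refine hpab hk2 (hδb ?_)
            have h9 : dist r' r ≤ δ / 2 := by
              rw [dist_pi_le_iff (by positivity)]
              intro i
              rw [dist_eq_norm]
              exact (hr' i).trans (min_le_right _ _)
            linarith
          · have h8 := D3 (sb a' b' P) (fun k => sb (ak k) (bk k) P) P.totalDegree hdeg hlim w r
              (h4 r hr) ε hε
            filter_upwards [h8] with k hk1
            obtain ⟨r', hr', hPt⟩ := hk1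
            refine ⟨r', hr', hPt, fun hmem => ?_⟩
            rcases Finset.mem_insert.1 hmem with h | h
            · exact absurd h hr0
            · exact absurd h hrT)
      obtain ⟨k, f, hf1, hf2⟩ := hmv.exists
      have hsub : insert p₀ T ⊆ S' := Finset.insert_subset hp₀ h2
      refine ⟨ak k, bk k, S'.image f, (insert p₀ T).image f, ?_, ?_, ?_, ?_, ?_⟩
      · rw [Finset.card_image_of_injOn hf1, h1]
      · exact Finset.image_subset_image hsub
      · rw [Finset.card_image_of_injOn (hf1.mono (by exact_mod_cast hsub)),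
          Finset.card_insert_of_notMem hp₀T, h3]
      · intro p hp
        obtain ⟨r, hr, rfl⟩ := Finset.mem_image.1 hp
        exact (hf2 r hr).1
      · intro p hp
        obtain ⟨r, hr, rfl⟩ := Finset.mem_image.1 hp
        exact (hf2 r (hsub hr)).2 hr
  obtain ⟨a', b', S', T, h1, h2, h3, h4, h5⟩ := main S.card le_rfl
  have hTS : T = S' := Finset.eq_of_subset_of_card_le h2 (by omega)
  subst hTS
  exact ⟨a', b', T, h1, fun p hp => ⟨h4 p hp, h5 p hp⟩⟩

end Pool.Agent.L5helper59.DM
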